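import Pool.Agent.Y941.GD.Mul

/-!
# `ST(H^∞)`: matrix valued symbols, resolvents and functional calculus

The algebra `ST(H^∞)` is a generalized Douglas algebra, also for square matrices of any size with
entries in it, and its spectra are the essential ranges with some of the holes filled.
-/

set_option autoImplicit false

open MeasureTheory AddCircle Filter Topology
open scoped ComplexConjugate

namespace Pool.Agent.Results.MP_e9aa5f_an.MatrixSymbols

/-- `f` is (a representative of) a function in `H^∞`: bounded, no negative Fourier coefficients. -/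
def HInf (f : UnitAddCircle → ℂ) : Prop :=
  AEStronglyMeasurable f haarAddCircle ∧ eLpNorm f ⊤ haarAddCircle < ⊤ ∧
    ∀ n : ℤ, n < 0 → fourierCoeff f n = 0

/-- `‖P₊(f p)‖_∞ ≤ C ‖p‖_∞` for every analytic polynomial `p`. The function `g` below has the
Fourier coefficients of `P₊(f p)`; on the circle `p` is `t ↦ p(e^{2πit})` and `fourier 1 t` is
`e^{2πit}`. -/
def STBound (f : UnitAddCircle → ℂ) (C : ℝ) : Prop :=
  ∀ p : Polynomial ℂ, ∃ g : UnitAddCircle → ℂ, AEStronglyMeasurable g haarAddCircle ∧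
    eLpNorm g ⊤ haarAddCircle ≤
      ENNReal.ofReal C * eLpNorm (fun t : UnitAddCircle => p.eval (fourier 1 t)) ⊤ haarAddCircle ∧
    ∀ n : ℤ, fourierCoeff g n =
      if 0 ≤ n then fourierCoeff (fun t : UnitAddCircle => f t * p.eval (fourier 1 t)) n else 0

/-- `f ∈ ST(H^∞)`: `f ∈ L^∞` and `‖P₊(f p)‖_∞ ≤ C ‖p‖_∞` for some constant `C`. -/
def ST (f : UnitAddCircle → ℂ) : Prop :=
  AEStronglyMeasurable f haarAddCircle ∧ eLpNorm f ⊤ haarAddCircle < ⊤ ∧
    ∃ C : ℝ, 0 ≤ C ∧ STBound f C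

/-- The norm of `ST(H^∞)`, the least constant. -/
noncomputable def stNorm (f : UnitAddCircle → ℂ) : ℝ := sInf {C : ℝ | 0 ≤ C ∧ STBound f C}

/-- `X` is (the set of representatives of) a generalized Douglas algebra. -/
structure IsGDAlgebra (X : (UnitAddCircle → ℂ) → Prop) : Prop where
  bounded : ∀ f, X f → AEStronglyMeasurable f haarAddCircle ∧ eLpNorm f ⊤ haarAddCircle < ⊤
  congr_ae : ∀ f g, X f → f =ᵐ[haarAddCircle] g → X g
  hInf_mem : ∀ f, HInf f → X f
  add_mem : ∀ f g, X f → X g → X (fun t => f t + g t)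
  mul_mem : ∀ f g, X f → X g → X (fun t => f t * g t)
  inv_mem : ∀ f, X f → eLpNorm f ⊤ haarAddCircle < 1 → X (fun t => 1 / (1 - f t))

/-- the sup norm of `f` -/
noncomputable def supNorm (f : UnitAddCircle → ℂ) : ℝ := (eLpNorm f ⊤ haarAddCircle).toReal

/-- the essential range of `f` -/
def essRange (f : UnitAddCircle → ℂ) : Set ℂ :=
  {w | ∀ ε : ℝ, 0 < ε → 0 < haarAddCircle {t : UnitAddCircle | ‖f t - w‖ < ε}}

/-- `M` is a matrix of functions in `ST(H^∞)` -/
def MatST {n : ℕ} (M : UnitAddCircle → Matrix (Fin n) (Fin n) ℂ) : Prop :=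
  ∀ i j, ST (fun t => M t i j)

/-- `M` has an inverse in the algebra of matrices of functions in `ST(H^∞)` -/
def InvertibleMatST {n : ℕ} (M : UnitAddCircle → Matrix (Fin n) (Fin n) ℂ) : Prop :=
  ∃ N : UnitAddCircle → Matrix (Fin n) (Fin n) ℂ, MatST N ∧
    ∀ᵐ t ∂haarAddCircle, M t * N t = 1 ∧ N t * M t = 1

/-- the operator norm of the matrix `A` on the Hilbert space `ℂⁿ` is at most `q` -/
def NormLE {n : ℕ} (A : Matrix (Fin n) (Fin n) ℂ) (q : ℝ) : Prop :=
  ∀ v : Fin n → ℂ, ∑ i, ‖A.mulVec v i‖ ^ 2 ≤ q ^ 2 * ∑ i, ‖v i‖ ^ 2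

/-- `f` is a multiplier of Cauchy type integrals: `f ∈ H^∞` and the Toeplitz operator with the symbol
`conj f` is bounded on `H^∞` -/
def Mult (f : UnitAddCircle → ℂ) : Prop := HInf f ∧ ST (fun t => conj (f t))

/-- **`ST(H^∞)` is a generalized Douglas algebra, also for symbols with values in the matrices.**
(1) `ST(H^∞)` is a generalized Douglas algebra.
(2) The spectral radius of each of its elements is the `L^∞` norm.
(3) The same holds for the algebra of multipliers of Cauchy type integrals: it contains `1 / (1 - f)`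
with `f` if `‖f‖_∞ < 1`.
(4) (Matrix form.) If `M` is a matrix of functions in `ST(H^∞)` and the operator norms of the matrices
`M t` are almost everywhere at most `q < 1`, then `1 - M` is invertible over `ST(H^∞)`.
(5) (Spectra.) Let `Ω` be a connected set which does not meet the essential range of `f ∈ ST(H^∞)`.
Then `1 / (w - f)` belongs to `ST(H^∞)` for all `w ∈ Ω` or for no `w ∈ Ω`; the first holds if
`|w| > ‖f‖_∞` for some `w ∈ Ω`. So the spectrum of `f` in `ST(H^∞)` is the essential range together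
with some of the bounded components of its complement.
(6) (Functional calculus.) If `‖f - c‖_∞ < R` and `F` is holomorphic in the disc with centre `c` and
radius `R`, then `F ∘ f` belongs to `ST(H^∞)` if `f` does, and is a multiplier of Cauchy type integrals
if `f` is. -/
theorem result :
    IsGDAlgebra ST ∧
    (∀ f, ST f → Tendsto (fun n : ℕ => stNorm (fun t => f t ^ n) ^ (1 / (n : ℝ))) atTop
      (𝓝 (supNorm f))) ∧
    (∀ f, Mult f → supNorm f < 1 → Mult (fun t => 1 / (1 - f t))) ∧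
    (∀ (n : ℕ) (M : UnitAddCircle → Matrix (Fin n) (Fin n) ℂ) (q : ℝ), MatST M → 0 ≤ q → q < 1 →
      (∀ᵐ t ∂haarAddCircle, NormLE (M t) q) → InvertibleMatST (fun t => 1 - M t)) ∧
    (∀ (f : UnitAddCircle → ℂ) (Ω : Set ℂ), ST f → IsPreconnected Ω → Disjoint Ω (essRange f) →
      ((∀ w ∈ Ω, ST (fun t => 1 / (w - f t))) ∨ ∀ w ∈ Ω, ¬ ST (fun t => 1 / (w - f t))) ∧
      ((∃ w ∈ Ω, supNorm f < ‖w‖) → ∀ w ∈ Ω, ST (fun t => 1 / (w - f t)))) ∧
    (∀ (f : UnitAddCircle → ℂ) (c : ℂ) (R : ℝ) (F : ℂ → ℂ), supNorm (fun t => f t - c) < R →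
      DifferentiableOn ℂ F (Metric.ball c R) →
      (ST f → ST (fun t => F (f t))) ∧ (Mult f → Mult (fun t => F (f t)))) := by
  have hfun : ∀ (f : UnitAddCircle → ℂ) (c : ℂ) (R : ℝ) (F : ℂ → ℂ),
      supNorm (fun t => f t - c) < R → DifferentiableOn ℂ F (Metric.ball c R) →
      (ST f → ST (fun t => F (f t))) ∧ (Mult f → Mult (fun t => F (f t))) := by
    intro f c R F hR hF
    refine ⟨fun hf => Pool.Agent.Y941.GD.pser hf c R hR F hF, fun hf => ⟨?_, ?_⟩⟩
    · exact Pool.Agent.Y941.GD.hfun hf.1 c R hR F hF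
    · exact Pool.Agent.Y941.GD.mfun hf.2 c R hR F hF
  refine ⟨{ bounded := fun _ hf => ⟨hf.1, hf.2.1⟩
            congr_ae := fun _ _ hf h => Pool.Agent.Helper406.Toep.ST_congr hf h
            hInf_mem := fun _ hf => Pool.Agent.Helper406.Toep.ST_Hinf hf.1 hf.2.1 hf.2.2
            add_mem := fun _ _ hf hg => Pool.Agent.Helper406.Toep.ST_add hf hg
            mul_mem := fun _ _ hf hg => Pool.Agent.Helper406.Toep.ST_mul hf hg
            inv_mem := fun _ hf h => Pool.Agent.Helper406.Toep.ST_inv hf h },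
    fun _ hf => Pool.Agent.Helper406.Toep.ST_radius hf, ?_, ?_, ?_, hfun⟩
  · intro f hf h1
    refine (hfun f 0 1 (fun z => 1 / (1 - z)) ?_ ?_).2 hf
    · simpa only [sub_zero] using h1
    · intro z hz
      have h2 : (1 : ℂ) - z ≠ 0 := by
        intro h3
        rw [mem_ball_zero_iff] at hz
        rw [← sub_eq_zero.1 h3, norm_one] at hz
        exact lt_irrefl _ hz
      exact ((differentiableAt_const _).div ((differentiableAt_const _).sub differentiableAt_id)
        h2).differentiableWithinAt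
  · intro n M q hM hq0 hq hb
    refine ⟨fun t => (1 - M t)⁻¹, Pool.Agent.Y941.GD.mat_gd M q hq0 hq hM hb, ?_⟩
    filter_upwards [hb] with t ht
    exact Pool.Agent.Y941.GD.inv_small hq0 hq ht
  · intro f Ω hf hΩ hd
    have hoff : ∀ w ∈ Ω, Pool.Agent.Y941.GD.Off f w := fun w hw =>
      Pool.Agent.Y941.GD.off_of fun h => Set.disjoint_left.1 hd hw h
    have key : ∀ w₀ ∈ Ω, ST (fun t => 1 / (w₀ - f t)) → ∀ w ∈ Ω, ST (fun t => 1 / (w - f t)) :=
      fun w₀ h0 h1 => Pool.Agent.Y941.GD.res_conn hΩ hoff h0 h1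
    refine ⟨?_, ?_⟩
    · by_cases h : ∃ w₀ ∈ Ω, ST (fun t => 1 / (w₀ - f t))
      · obtain ⟨w₀, h0, h1⟩ := h
        exact Or.inl (key w₀ h0 h1)
      · exact Or.inr fun w hw h1 => h ⟨w, hw, h1⟩
    · rintro ⟨w₀, h0, h1⟩
      exact key w₀ h0 (Pool.Agent.Y941.GD.res_far hf h1)

end Pool.Agent.Results.MP_e9aa5f_an.MatrixSymbols
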